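import Pool.Agent.Y557.U.Stm6
import Pool.Agent.Y977.U557.BM

/-!
# The n-term theorem of Mason and Stothers without vanishing subsums (helper954)
-/

set_option autoImplicit false

open Polynomial

namespace Pool.Agent.Y954.U557

section heights

variable {V ι : Type} [DecidableEq ι]

/-- the height of the tuple with indices in `S` -/
noncomputable def hgt (T : Finset V) (w : V → ι → ℤ) (S : Finset ι) (hS : S.Nonempty) : ℤ :=
  -∑ v ∈ T, S.inf' hS (w v)

lemma hgt_union (T : Finset V) (w : V → ι → ℤ) (hw : ∀ i, ∑ v ∈ T, w v i = 0)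
    (S U : Finset ι) (hS : S.Nonempty) (hU : U.Nonempty) (k : ι) (hkS : k ∈ S) (hkU : k ∈ U)
    (hSU : (S ∪ U).Nonempty) :
    hgt T w (S ∪ U) hSU ≤ hgt T w S hS + hgt T w U hU := by
  unfold hgt
  have h1 : ∀ v ∈ T, S.inf' hS (w v) + U.inf' hU (w v) ≤ (S ∪ U).inf' hSU (w v) + w v k := by
    intro v _
    rw [Finset.inf'_union hS hU]
    have h2 := Finset.inf'_le (w v) hkS
    have h3 := Finset.inf'_le (w v) hkU
    rcases le_total (S.inf' hS (w v)) (U.inf' hU (w v)) with h | h
    · rw [inf_eq_left.2 h]; linarith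
    · rw [inf_eq_right.2 h]; linarith
  have h2 := Finset.sum_le_sum h1
  rw [Finset.sum_add_distrib, Finset.sum_add_distrib, hw k] at h2
  linarith

omit [DecidableEq ι] in
lemma hgt_single (T : Finset V) (w : V → ι → ℤ) (hw : ∀ i, ∑ v ∈ T, w v i = 0) (i : ι)
    (hi : ({i} : Finset ι).Nonempty) : hgt T w {i} hi = 0 := by
  unfold hgt
  simp [hw i]

end heights

section circuits

variable {K M : Type} [Field K] [AddCommGroup M] [Module K M] {ι : Type} [Fintype ι]
  [DecidableEq ι]

/-- `S` is the support of a relation, and there is no relation with smaller support -/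
def Circ (P : ι → M) (S : Finset ι) : Prop :=
  (∃ c : ι → K, (∀ i, c i ≠ 0 ↔ i ∈ S) ∧ ∑ i, c i • P i = 0) ∧
    ∀ d : ι → K, (∀ i, d i ≠ 0 → i ∈ S) → (∃ i ∈ S, d i = 0) → ∑ i, d i • P i = 0 → d = 0

omit [DecidableEq ι] in
lemma exists_circ (P : ι → M) (hsum : ∑ i, P i = 0) (U : Finset ι) (hU : ∑ i ∈ U, P i ≠ 0) :
    ∃ S : Finset ι, Circ (K := K) P S ∧ (∃ i ∈ S, i ∈ U) ∧ ∃ i ∈ S, i ∉ U := by
  classical
  let Q : ℕ → Prop := fun k => ∃ c : ι → K, (Finset.univ.filter (fun i => c i ≠ 0)).card = k ∧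
    ∑ i, c i • P i = 0 ∧ ∑ i ∈ U, c i • P i ≠ 0
  have hQ : ∃ k, Q k := ⟨_, fun _ => 1, rfl, by simpa using hsum, by simpa using hU⟩
  obtain ⟨c, hc1, hc2, hc3⟩ := Nat.find_spec hQ
  have hmin : ∀ d : ι → K, (Finset.univ.filter (fun i => d i ≠ 0)).card < Nat.find hQ →
      ∑ i, d i • P i = 0 → ∑ i ∈ U, d i • P i = 0 := by
    intro d h1 h2
    by_contra h3
    exact Nat.find_min hQ h1 ⟨d, rfl, h2, h3⟩
  refine ⟨Finset.univ.filter (fun i => c i ≠ 0), ⟨⟨c, fun i => by simp, hc2⟩, ?_⟩, ?_, ?_⟩
  · intro d hd1 ⟨i0, hi0, hdi0⟩ hd2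
    by_contra hd0
    have h1 : ∑ i ∈ U, d i • P i = 0 := by
      apply hmin d _ hd2
      rw [← hc1]
      apply Finset.card_lt_card
      rw [Finset.ssubset_iff_of_subset]
      · exact ⟨i0, hi0, by simp [hdi0]⟩
      · intro i hi
        exact hd1 i (Finset.mem_filter.1 hi).2
    obtain ⟨i1, hi1⟩ := Function.ne_iff.1 hd0
    rw [Pi.zero_apply] at hi1
    have h2 : ∑ i ∈ U, (c i - c i1 / d i1 * d i) • P i = 0 := by
      apply hmin (fun i => c i - c i1 / d i1 * d i)
      · rw [← hc1]
        apply Finset.card_lt_card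
        rw [Finset.ssubset_iff_of_subset]
        · refine ⟨i1, hd1 i1 hi1, ?_⟩
          simp [hi1]
        · intro i hi
          rw [Finset.mem_filter] at hi ⊢
          refine ⟨hi.1, fun h3 => hi.2 ?_⟩
          have h4 : d i = 0 := by
            by_contra h5
            exact (Finset.mem_filter.1 (hd1 i h5)).2 h3
          rw [h3, h4]
          ring
      · simp only [sub_smul, mul_smul, Finset.sum_sub_distrib]
        rw [hc2, ← Finset.smul_sum, hd2, smul_zero, sub_zero]
    simp only [sub_smul, mul_smul, Finset.sum_sub_distrib] at h2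
    rw [← Finset.smul_sum, h1, smul_zero, sub_zero] at h2
    exact hc3 h2
  · by_contra h
    push Not at h
    apply hc3
    apply Finset.sum_eq_zero
    intro i hi
    have : c i = 0 := by
      by_contra h1
      exact h i (by simp [h1]) hi
    rw [this, zero_smul]
  · by_contra h
    push Not at h
    apply hc3
    rw [← hc2]
    apply Finset.sum_subset (Finset.subset_univ U)
    intro i _ hi
    have : c i = 0 := by
      by_contra h1
      exact hi (h i (by simp [h1]))
    rw [this, zero_smul]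

/-- the chain of circuits -/
lemma chain {V : Type} (T : Finset V) (w : V → ι → ℤ) (hw : ∀ i, ∑ v ∈ T, w v i = 0)
    (P : ι → M) (hsum : ∑ i, P i = 0)
    (hvan : ∀ s : Finset ι, s.Nonempty → s ≠ Finset.univ → ∑ i ∈ s, P i ≠ 0) (B : ℤ) (hB : 0 ≤ B)
    (hcirc : ∀ (S : Finset ι) (hS : S.Nonempty), Circ (K := K) P S → 2 * hgt T w S hS ≤ B) :
    ∀ (k : ℕ) (U : Finset ι) (hU : U.Nonempty), Fintype.card ι - U.card = k →
      2 * hgt T w U hU ≤ (U.card - 1) * B → ∀ hn : (Finset.univ : Finset ι).Nonempty,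
      2 * hgt T w Finset.univ hn ≤ (Fintype.card ι - 1) * B := by
  intro k
  induction k using Nat.strong_induction_on with
  | _ k ih =>
    intro U hU hk hgood hn
    by_cases hUu : U = Finset.univ
    · subst hUu
      rwa [Finset.card_univ] at hgood
    · obtain ⟨S, hS1, ⟨i, hiS, hiU⟩, ⟨j, hjS, hjU⟩⟩ :=
        exists_circ (K := K) P hsum U (hvan U hU hUu)
      have hS : S.Nonempty := ⟨i, hiS⟩
      have hUS : (U ∪ S).Nonempty := hU.mono Finset.subset_union_left
      have h1 := hgt_union T w hw U S hU hS i hiU hiS hUS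
      have h2 := hcirc S hS hS1
      have h3 : U.card < (U ∪ S).card := by
        apply Finset.card_lt_card
        rw [Finset.ssubset_iff_of_subset Finset.subset_union_left]
        exact ⟨j, Finset.mem_union_right _ hjS, hjU⟩
      have h4 : (U ∪ S).card ≤ Fintype.card ι := Finset.card_le_univ _
      refine ih (Fintype.card ι - (U ∪ S).card) (by omega) (U ∪ S) hUS rfl ?_ hn
      have h5 : ((U.card : ℤ) + 1) ≤ ((U ∪ S).card : ℤ) := by exact_mod_cast h3
      nlinarith

end circuits

section poly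

open Pool.Agent.Y557.U (S_BM S_BMG)
open Pool.Agent.Y557.NF (rts nz Unequal)

variable {K : Type} [Field K]

/-- a product of powers of linear factors -/
noncomputable def pw (R : Finset K) (c : K) (m : K → ℕ) : K[X] :=
  C c * ∏ r ∈ R, (X - C r) ^ m r

lemma pw_ne (R : Finset K) {c : K} (hc : c ≠ 0) (m : K → ℕ) : pw R c m ≠ 0 := by
  unfold pw
  refine mul_ne_zero (C_ne_zero.2 hc) (Finset.prod_ne_zero_iff.2 fun r _ => ?_)
  exact pow_ne_zero _ (X_sub_C_ne_zero r)

lemma pw_splits (R : Finset K) (c : K) (m : K → ℕ) : (pw R c m).Splits := by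
  unfold pw
  exact (Splits.C c).mul (Splits.prod fun r _ => (Splits.X_sub_C r).pow _)

lemma pw_deg (R : Finset K) {c : K} (hc : c ≠ 0) (m : K → ℕ) :
    (pw R c m).natDegree = ∑ r ∈ R, m r := by
  unfold pw
  rw [natDegree_C_mul hc, natDegree_prod _ _ fun r _ => pow_ne_zero _ (X_sub_C_ne_zero r)]
  refine Finset.sum_congr rfl fun r _ => ?_
  rw [natDegree_pow, natDegree_X_sub_C, mul_one]

lemma pw_eval (R : Finset K) {c : K} (hc : c ≠ 0) (m : K → ℕ) (a : K) :
    (pw R c m).eval a = 0 ↔ a ∈ R ∧ m a ≠ 0 := by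
  unfold pw
  rw [eval_mul, eval_C, eval_prod, mul_eq_zero, Finset.prod_eq_zero_iff]
  constructor
  · rintro (h | ⟨r, hr, h⟩)
    · exact absurd h hc
    · rw [eval_pow, eval_sub, eval_X, eval_C] at h
      have h1 := eq_zero_of_pow_eq_zero h
      have h2 : a = r := sub_eq_zero.1 h1
      subst h2
      refine ⟨hr, fun h3 => ?_⟩
      rw [h3, pow_zero] at h
      exact one_ne_zero h
  · rintro ⟨h1, h2⟩
    right
    refine ⟨a, h1, ?_⟩
    rw [eval_pow, eval_sub, eval_X, eval_C, sub_self, zero_pow h2]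

lemma pw_mul (R : Finset K) (c d : K) (m l : K → ℕ) :
    pw R c m * pw R d l = pw R (c * d) (fun r => m r + l r) := by
  unfold pw
  rw [C_mul]
  have : ∏ r ∈ R, (X - C r) ^ (m r + l r) =
      (∏ r ∈ R, (X - C r) ^ m r) * ∏ r ∈ R, (X - C r) ^ l r := by
    rw [← Finset.prod_mul_distrib]
    exact Finset.prod_congr rfl fun r _ => pow_add _ _ _
  rw [this]
  ring

lemma pw_congr (R : Finset K) (c : K) {m l : K → ℕ} (h : ∀ r ∈ R, m r = l r) :
    pw R c m = pw R c l := by
  unfold pw
  congr 1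
  exact Finset.prod_congr rfl fun r hr => by rw [h r hr]

lemma pw_smul (R : Finset K) (a c : K) (m : K → ℕ) : a • pw R c m = pw R (a * c) m := by
  unfold pw
  rw [C_mul, smul_eq_C_mul, mul_assoc]

variable {n : ℕ} (P : Fin n → K[X])

lemma mem_rts (hP : ∀ i, P i ≠ 0) (r : K) : r ∈ rts P ↔ ∃ i, (P i).eval r = 0 := by
  classical
  unfold rts
  rw [Multiset.mem_toFinset, mem_roots (Finset.prod_ne_zero_iff.2 fun i _ => hP i), IsRoot,
    eval_prod, Finset.prod_eq_zero_iff]
  simp

lemma eq_pw (hP : ∀ i, P i ≠ 0) (hs : ∀ i, (P i).Splits) (i : Fin n) :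
    P i = pw (rts P) (P i).leadingCoeff (fun r => (P i).rootMultiplicity r) := by
  classical
  unfold pw
  conv_lhs => rw [(hs i).eq_prod_roots, Finset.prod_multiset_map_count]
  congr 1
  simp only [count_roots]
  refine Finset.prod_subset ?_ ?_
  · intro r hr
    rw [Multiset.mem_toFinset, mem_roots (hP i)] at hr
    exact (mem_rts P hP r).2 ⟨i, hr⟩
  · intro r _ hr
    rw [Multiset.mem_toFinset, mem_roots (hP i)] at hr
    rw [rootMultiplicity_eq_zero hr, pow_zero]

/-- the order of `P i` at the points of the line -/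
noncomputable def w : Option K → Fin n → ℤ
  | none, i => -((P i).natDegree : ℤ)
  | some r, i => ((P i).rootMultiplicity r : ℤ)

lemma deg_eq (hP : ∀ i, P i ≠ 0) (hs : ∀ i, (P i).Splits) (i : Fin n) :
    (P i).natDegree = ∑ r ∈ rts P, (P i).rootMultiplicity r := by
  conv_lhs => rw [eq_pw P hP hs i]
  exact pw_deg _ (leadingCoeff_ne_zero.2 (hP i)) _

lemma sum_w (hP : ∀ i, P i ≠ 0) (hs : ∀ i, (P i).Splits) (i : Fin n) :
    ∑ v ∈ Finset.insertNone (rts P), w P v i = 0 := by
  rw [Finset.sum_insertNone]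
  simp only [w]
  rw [deg_eq P hP hs i]
  push_cast
  ring

lemma cast_inf {ι : Type} (S : Finset ι) (hS : S.Nonempty) (f : ι → ℕ) :
    ((S.inf' hS f : ℕ) : ℤ) = S.inf' hS (fun i => (f i : ℤ)) := by
  apply le_antisymm
  · rw [Finset.le_inf'_iff]
    intro i hi
    exact_mod_cast Finset.inf'_le f hi
  · obtain ⟨i, hi, h⟩ := Finset.exists_mem_eq_inf' hS f
    rw [h]
    exact Finset.inf'_le (fun i => (f i : ℤ)) hi

lemma hgt_eq (S : Finset (Fin n)) (hS : S.Nonempty) :
    hgt (Finset.insertNone (rts P)) (w P) S hS =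
      -S.inf' hS (fun i => -((P i).natDegree : ℤ)) -
        ∑ r ∈ rts P, ((S.inf' hS (fun i => (P i).rootMultiplicity r) : ℕ) : ℤ) := by
  unfold hgt
  rw [Finset.sum_insertNone]
  have h1 : ∀ r, ((S.inf' hS (fun i => (P i).rootMultiplicity r) : ℕ) : ℤ) =
      S.inf' hS (w P (some r)) := fun r => cast_inf S hS _
  rw [Finset.sum_congr rfl fun r _ => h1 r]
  have h2 : w P none = fun i => -((P i).natDegree : ℤ) := rfl
  rw [h2]
  ring

/-- the bound for circuits -/
lemma circ_bound [CharZero K] (hBM : S_BM K) (hP : ∀ i, P i ≠ 0) (hs : ∀ i, (P i).Splits)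
    (S : Finset (Fin n)) (hS : S.Nonempty) (hc : Circ (K := K) P S) :
    2 * hgt (Finset.insertNone (rts P)) (w P) S hS ≤
      (((S.card - 1) * (S.card - 2) * (nz P - 2) : ℕ) : ℤ) := by
  classical
  obtain ⟨⟨c, hc1, hc2⟩, hc3⟩ := hc
  by_cases hh : hgt (Finset.insertNone (rts P)) (w P) S hS ≤ 0
  · have : (0 : ℤ) ≤ (((S.card - 1) * (S.card - 2) * (nz P - 2) : ℕ) : ℤ) := Int.natCast_nonneg _
    linarith
  push Not at hh
  obtain ⟨m, hm⟩ : ∃ m, S.card = m + 1 := ⟨S.card - 1, by have := hS.card_pos; omega⟩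
  set ε : Fin (m + 1) ↪o Fin n := S.orderEmbOfFin hm with hε
  have hεS : ∀ j, ε j ∈ S := fun j => Finset.orderEmbOfFin_mem S hm j
  have hεr : ∀ i ∈ S, ∃ j, ε j = i := by
    intro i hi
    have : i ∈ Set.range ε := by
      rw [hε, Finset.range_orderEmbOfFin]
      exact hi
    exact this
  set μ : K → ℕ := fun r => S.inf' hS (fun i => (P i).rootMultiplicity r) with hμ
  have hμle : ∀ r, ∀ i ∈ S, μ r ≤ (P i).rootMultiplicity r := fun r i hi =>
    Finset.inf'_le (fun i => (P i).rootMultiplicity r) hi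
  have hcε : ∀ j, c (ε j) ≠ 0 := fun j => (hc1 _).2 (hεS j)
  have hlc : ∀ j, c (ε j) * (P (ε j)).leadingCoeff ≠ 0 := fun j =>
    mul_ne_zero (hcε j) (leadingCoeff_ne_zero.2 (hP _))
  let R : Fin (m + 1) → K[X] := fun j => pw (rts P) (c (ε j) * (P (ε j)).leadingCoeff)
    (fun r => (P (ε j)).rootMultiplicity r - μ r)
  have hGR : ∀ j, pw (rts P) 1 μ * R j = c (ε j) • P (ε j) := by
    intro j
    conv_rhs => rw [eq_pw P hP hs (ε j), pw_smul]
    simp only [R]
    rw [pw_mul, one_mul]
    apply pw_congr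
    intro r _
    have := hμle r _ (hεS j)
    omega
  have hG0 : pw (rts P) 1 μ ≠ 0 := pw_ne _ one_ne_zero _
  have hsumS : ∀ f : Fin n → K, (∀ i, f i ≠ 0 → i ∈ S) →
      ∑ i, f i • P i = ∑ j, f (ε j) • P (ε j) := by
    intro f hf
    have h1 : ∑ i, f i • P i = ∑ i ∈ S, f i • P i := by
      symm
      apply Finset.sum_subset (Finset.subset_univ S)
      intro i _ hi
      have : f i = 0 := by
        by_contra h
        exact hi (hf i h)
      rw [this, zero_smul]
    rw [h1]
    have h2 : S = Finset.univ.map ε.toEmbedding := by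
      ext i
      simp only [Finset.mem_map, Finset.mem_univ, true_and]
      constructor
      · intro hi
        obtain ⟨j, hj⟩ := hεr i hi
        exact ⟨j, hj⟩
      · rintro ⟨j, rfl⟩
        exact hεS j
    conv_lhs => rw [h2]
    rw [Finset.sum_map]
    rfl
  -- the degrees
  have hdeg : ∀ j, ((R j).natDegree : ℤ) = (P (ε j)).natDegree - ∑ r ∈ rts P, (μ r : ℤ) := by
    intro j
    simp only [R]
    rw [pw_deg _ (hlc j), deg_eq P hP hs (ε j)]
    push_cast
    rw [← Finset.sum_sub_distrib]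
    refine Finset.sum_congr rfl fun r _ => ?_
    rw [Nat.cast_sub (hμle r _ (hεS j))]
  have hhgt := hgt_eq P S hS
  obtain ⟨D, hD⟩ : ∃ D : ℕ, (D : ℤ) = hgt (Finset.insertNone (rts P)) (w P) S hS :=
    ⟨_, Int.toNat_of_nonneg hh.le⟩
  have hD1 : 1 ≤ D := by
    have : (0 : ℤ) < D := by rw [hD]; exact hh
    exact_mod_cast this
  have hRD : ∀ j, (R j).natDegree ≤ D := by
    intro j
    have h1 : ((R j).natDegree : ℤ) ≤ D := by
      rw [hdeg, hD, hhgt]
      have := Finset.inf'_le (fun i => -((P i).natDegree : ℤ)) (hεS j)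
      linarith
    exact_mod_cast h1
  have hRD' : ∃ j, (R j).natDegree = D := by
    obtain ⟨i, hi, h⟩ := Finset.exists_mem_eq_inf' hS (fun i => -((P i).natDegree : ℤ))
    obtain ⟨j, rfl⟩ := hεr i hi
    refine ⟨j, ?_⟩
    have h1 : ((R j).natDegree : ℤ) = D := by
      rw [hdeg, hD, hhgt, h]
      ring
    exact_mod_cast h1
  -- no common zero
  have hcz : ∀ r : K, ∃ j, (R j).eval r ≠ 0 := by
    intro r
    obtain ⟨i, hi, h⟩ := Finset.exists_mem_eq_inf' hS (fun i => (P i).rootMultiplicity r)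
    obtain ⟨j, rfl⟩ := hεr i hi
    refine ⟨j, fun h1 => ?_⟩
    rw [pw_eval _ (hlc j)] at h1
    apply h1.2
    have : μ r = (P (ε j)).rootMultiplicity r := h
    omega
  have hsum0 : ∑ j, R j = 0 := by
    have h1 : pw (rts P) 1 μ * ∑ j, R j = 0 := by
      rw [Finset.mul_sum, Finset.sum_congr rfl fun j _ => hGR j, ← hsumS c fun i => (hc1 i).1]
      exact hc2
    exact (mul_eq_zero.1 h1).resolve_left hG0
  have hinj : Function.Injective (fun j : Fin m => ε j.castSucc) :=
    ε.injective.comp (Fin.castSucc_injective m)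
  have hli : LinearIndependent K fun j : Fin m => R j.castSucc := by
    rw [Fintype.linearIndependent_iff]
    intro g hg j
    let d : Fin n → K := Function.extend (fun j : Fin m => ε j.castSucc)
      (fun j => g j * c (ε j.castSucc)) 0
    have hd1 : ∀ j : Fin m, d (ε j.castSucc) = g j * c (ε j.castSucc) := fun j =>
      hinj.extend_apply (fun j => g j * c (ε j.castSucc)) 0 j
    have hd2 : d (ε (Fin.last m)) = 0 := by
      apply Function.extend_apply'
      rintro ⟨j, hj⟩
      have := ε.injective hj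
      exact (Fin.castSucc_lt_last j).ne this
    have hd3 : ∀ i, d i ≠ 0 → i ∈ S := by
      intro i hi
      by_contra h
      apply hi
      apply Function.extend_apply'
      rintro ⟨j, rfl⟩
      exact h (hεS _)
    have h1 : ∑ i, d i • P i = 0 := by
      rw [hsumS d hd3, Fin.sum_univ_castSucc, hd2, zero_smul, add_zero]
      have h2 : ∀ j : Fin m, d (ε j.castSucc) • P (ε j.castSucc) =
          pw (rts P) 1 μ * (g j • R j.castSucc) := by
        intro j
        rw [hd1, mul_smul, ← hGR, mul_smul_comm]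
      rw [Finset.sum_congr rfl fun j _ => h2 j, ← Finset.mul_sum, hg, mul_zero]
    have h2 := hc3 d hd3 ⟨_, hεS (Fin.last m), hd2⟩ h1
    have h3 := hd1 j
    rw [h2, Pi.zero_apply] at h3
    exact (mul_eq_zero.1 h3.symm).resolve_right (hcε _)
  have hmain := hBM m R D (fun j => pw_ne _ (hlc j) _) (fun j => pw_splits _ _ _) hcz hsum0 hli
    hRD hRD' hD1
  -- comparison of the numbers of zeros
  have hnz : nz R ≤ nz P := by
    unfold nz
    apply add_le_add
    · apply Finset.card_le_card
      intro r hr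
      obtain ⟨j, hj⟩ := (mem_rts R (fun j => pw_ne _ (hlc j) _) r).1 hr
      exact ((pw_eval _ (hlc j) _ r).1 hj).1
    · by_cases hU : Unequal R
      · have hU' : Unequal P := by
          obtain ⟨i, j, hij⟩ := hU
          refine ⟨ε i, ε j, ?_⟩
          have h1 := hdeg i
          have h2 := hdeg j
          have h3 : ((R i).natDegree : ℤ) < (R j).natDegree := by exact_mod_cast hij
          have h4 : ((P (ε i)).natDegree : ℤ) < (P (ε j)).natDegree := by linarith
          exact_mod_cast h4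
        rw [if_pos hU, if_pos hU']
      · rw [if_neg hU]
        exact Nat.zero_le _
  have h5 : 2 * D + 2 * (m * (m - 1)) ≤ m * (m - 1) * nz P :=
    hmain.trans (Nat.mul_le_mul_left _ hnz)
  have h6 : 2 ≤ nz P := by
    by_contra h
    push Not at h
    have : m * (m - 1) * nz P ≤ m * (m - 1) * 2 := Nat.mul_le_mul_left _ h.le
    omega
  have h7 : 2 * D ≤ m * (m - 1) * (nz P - 2) := by
    rw [Nat.mul_sub]
    omega
  rw [← hD, hm]
  have h8 : (m + 1 - 1) * (m + 1 - 2) * (nz P - 2) = m * (m - 1) * (nz P - 2) := by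
    congr 1
  rw [h8]
  exact_mod_cast h7

theorem bmg [CharZero K] (hBM : S_BM K) : S_BMG K := by
  classical
  intro n P D hP hs hcz hsum hvan hD hD' hD1
  obtain ⟨i0, hi0⟩ := hD'
  have hn : (Finset.univ : Finset (Fin n)).Nonempty := ⟨i0, Finset.mem_univ _⟩
  have hn1 : 1 ≤ n := by
    have := i0.pos
    omega
  have hw := sum_w P hP hs
  -- the height of the whole tuple
  have hgtD : hgt (Finset.insertNone (rts P)) (w P) Finset.univ hn = D := by
    rw [hgt_eq]
    have h1 : Finset.univ.inf' hn (fun i => -((P i).natDegree : ℤ)) = -(D : ℤ) := by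
      apply le_antisymm
      · refine (Finset.inf'_le _ (Finset.mem_univ i0)).trans (le_of_eq ?_)
        rw [hi0]
      · rw [Finset.le_inf'_iff]
        intro i _
        have : ((P i).natDegree : ℤ) ≤ D := by exact_mod_cast hD i
        linarith
    have h2 : ∑ r ∈ rts P,
        ((Finset.univ.inf' hn (fun i => (P i).rootMultiplicity r) : ℕ) : ℤ) = 0 := by
      apply Finset.sum_eq_zero
      intro r _
      obtain ⟨i, hi⟩ := hcz r
      have h3 : Finset.univ.inf' hn (fun i => (P i).rootMultiplicity r) ≤ 0 := by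
        refine (Finset.inf'_le _ (Finset.mem_univ i)).trans (le_of_eq ?_)
        exact rootMultiplicity_eq_zero hi
      have h4 := Nat.le_zero.1 h3
      rw [h4, Nat.cast_zero]
    rw [h1, h2]
    ring
  have hkey : 2 * D ≤ (n - 1) * (n - 2) * max 1 (n - 3) * (nz P - 2) := by
    by_cases hex : Circ (K := K) P Finset.univ
    · have h1 := circ_bound P hBM hP hs Finset.univ hn hex
      rw [hgtD, Finset.card_univ, Fintype.card_fin] at h1
      have h2 : 2 * D ≤ (n - 1) * (n - 2) * (nz P - 2) := by exact_mod_cast h1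
      refine h2.trans ?_
      apply Nat.mul_le_mul_right
      exact Nat.le_mul_of_pos_right _ (by omega)
    · have h1 := chain (K := K) (Finset.insertNone (rts P)) (w P) hw P hsum hvan
        (((n - 2) * (n - 3) * (nz P - 2) : ℕ) : ℤ) (Int.natCast_nonneg _) (fun S hS hSc => by
          refine (circ_bound P hBM hP hs S hS hSc).trans ?_
          have h2 : S ≠ Finset.univ := by
            rintro rfl
            exact hex hSc
          have h3 : S.card < n := by
            have := (Finset.card_lt_iff_ne_univ S).2 h2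
            rwa [Fintype.card_fin] at this
          have h4 : (S.card - 1) * (S.card - 2) * (nz P - 2) ≤ (n - 2) * (n - 3) * (nz P - 2) :=
            Nat.mul_le_mul_right _ (Nat.mul_le_mul (by omega) (by omega))
          exact_mod_cast h4) (Fintype.card (Fin n) - ({i0} : Finset (Fin n)).card) {i0}
        (Finset.singleton_nonempty i0) rfl (by
          rw [hgt_single _ _ hw]
          simp) hn
      rw [hgtD, Fintype.card_fin] at h1
      have h2 : 2 * D ≤ (n - 1) * ((n - 2) * (n - 3) * (nz P - 2)) := by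
        have h3 : ((n - 1 : ℕ) : ℤ) = (n : ℤ) - 1 := by
          rw [Nat.cast_sub hn1]
          simp
        rw [← h3] at h1
        exact_mod_cast h1
      refine h2.trans ?_
      have h3 : (n - 1) * ((n - 2) * (n - 3) * (nz P - 2)) =
          (n - 1) * (n - 2) * (n - 3) * (nz P - 2) := by ring
      rw [h3]
      apply Nat.mul_le_mul_right
      apply Nat.mul_le_mul_left
      exact le_max_right _ _
  have hq : 2 ≤ nz P := by
    by_contra h
    have h1 : nz P - 2 = 0 := by omega
    rw [h1, mul_zero] at hkey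
    omega
  rw [Nat.mul_sub] at hkey
  have h2 : (n - 1) * (n - 2) * max 1 (n - 3) * 2 ≤ (n - 1) * (n - 2) * max 1 (n - 3) * nz P :=
    Nat.mul_le_mul_left _ hq
  omega

end poly

theorem bmg_holds (K : Type) [Field K] [CharZero K] : Pool.Agent.Y557.U.S_BMG K :=
  bmg (Pool.Agent.Y977.U557.bm_holds K)

end Pool.Agent.Y954.U557
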